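import Mathlib
import Pool.Agent.R674.Golod.Defs
import Pool.Agent.R674.Golod.Main

/-!
# MP_6756f0: the product of two Golod ideals need not be Golod

Let `k` be a field of characteristic zero, `S = k[x_0, x_1, x_2, x_3]`, `m = (x_0, …, x_3)` and
`J = m (x_0⁴, x_1⁴, x_2⁴, x_3⁴) + (x_0³ x_1³ x_2³ x_3³)`.  Then `m²` and `J` are Golod ideals
(contained in `m²`), but `m² J` is not Golod.

* `J` is Golod: the homology of the Koszul complex in positive degrees is represented by cycles
  whose pairwise products are zero.
* `m² J` is not Golod: `x_0³ x_1³ e_0 e_1` and `x_2³ x_3³ e_2 e_3` are cycles of degree two whose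
  product `x_0³ x_1³ x_2³ x_3³ e_0 e_1 e_2 e_3` is not zero in `H_4`.
-/

namespace Pool.Agent.Results.MP_6756f0_al.GolodProducts

open MvPolynomial Pool.Agent.R674.Golod

universe u

attribute [local instance] MvPolynomial.weightedGradedAlgebra

variable {k : Type u} [Field k]

theorem J_eq : idealOfVars (Fin 4) k * Ideal.span (Set.range fun i : Fin 4 => X i ^ 4) ⊔
    Ideal.span {∏ i : Fin 4, X i ^ 3} = monId k PJ := by
  classical
  have hprod : (∏ i : Fin 4, X i ^ 3 : MvPolynomial (Fin 4) k) =
      monomial (Finsupp.equivFunOnFinite.symm fun _ => 3) 1 := by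
    have hs : ∑ i : Fin 4, Finsupp.single i 3 = Finsupp.equivFunOnFinite.symm fun _ => 3 := by
      ext j
      simp [Finsupp.single_apply]
    rw [Finset.prod_congr rfl (fun i _ => X_pow_eq_monomial), ← monomial_sum_one, hs]
  apply le_antisymm
  · refine sup_le ?_ ?_
    · have h1 : Ideal.span (Set.range fun i : Fin 4 => (X i ^ 4 : MvPolynomial (Fin 4) k)) ≤
          monId k (fun s => ∃ i, 4 ≤ s i) := by
        rw [Ideal.span_le]
        rintro _ ⟨i, rfl⟩
        dsimp only
        rw [X_pow_eq_monomial]
        exact monomial_mem_monId (P := fun s => ∃ i, 4 ≤ s i) ⟨i, by simp⟩ 1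
      refine (Ideal.mul_mono vars_le h1).trans (monId_mul_le ?_)
      rintro s t hs ⟨i, hi⟩
      refine Or.inl ⟨i, by rw [Finsupp.add_apply]; omega, ?_⟩
      rw [map_add]
      have := le_degree' t i
      omega
    · rw [Ideal.span_le, Set.singleton_subset_iff, hprod]
      exact monomial_mem_monId (Or.inr fun i => by simp) 1
  · unfold monId
    rw [Ideal.span_le]
    rintro _ ⟨s, hs, rfl⟩
    rcases hs with ⟨i, h1, h2⟩ | h1
    · apply Ideal.mem_sup_left
      obtain ⟨j, hj⟩ : ∃ j, Finsupp.single i 4 + Finsupp.single j 1 ≤ s := by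
        have h3 : Finsupp.single i 4 ≤ s := by rw [Finsupp.single_le_iff]; exact h1
        have h4 : (s - Finsupp.single i 4) ≠ 0 := by
          intro h5
          have h6 : s = Finsupp.single i 4 := by
            rw [← tsub_add_cancel_of_le h3, h5, zero_add]
          rw [h6] at h2
          simp at h2
        obtain ⟨j, hj⟩ := Finsupp.ne_iff.1 h4
        refine ⟨j, ?_⟩
        rw [← tsub_add_cancel_of_le h3, add_comm]
        apply add_le_add_left
        rw [Finsupp.single_le_iff]
        simp only [Finsupp.coe_zero, Pi.zero_apply] at hj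
        omega
      have e : (monomial s (1 : k)) = monomial (s - (Finsupp.single i 4 + Finsupp.single j 1)) 1 *
          (X j * X i ^ 4) := by
        rw [X_pow_eq_monomial, X, monomial_mul, monomial_mul, one_mul, one_mul]
        congr 1
        rw [add_comm (Finsupp.single j 1), tsub_add_cancel_of_le hj]
      show monomial s (1 : k) ∈ _
      rw [e]
      exact Ideal.mul_mem_left _ _ (Ideal.mul_mem_mul (Ideal.subset_span (Set.mem_range_self j))
        (Ideal.subset_span ⟨i, rfl⟩))
    · apply Ideal.mem_sup_right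
      have hle : Finsupp.equivFunOnFinite.symm (fun _ => 3) ≤ s := fun i => h1 i
      have e : (monomial s (1 : k)) =
          monomial (s - Finsupp.equivFunOnFinite.symm fun _ => 3) 1 * ∏ i : Fin 4, X i ^ 3 := by
        rw [hprod, monomial_mul, one_mul, tsub_add_cancel_of_le hle]
      show monomial s (1 : k) ∈ _
      rw [e]
      exact Ideal.mul_mem_left _ _ (Ideal.subset_span rfl)

/-- **Negative answer to Q1 and Q2.**  Over every field `k` of characteristic zero the ideals `m²`
and `J = m (x_0⁴, …, x_3⁴) + (x_0³ x_1³ x_2³ x_3³)` of `k[x_0, …, x_3]` are Golod ideals inside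
`m²`, homogeneous for all weights of the variables, and their product is not Golod. -/
theorem result (k : Type u) [Field k] [CharZero k] :
    let m : Ideal (MvPolynomial (Fin 4) k) := Ideal.span (Set.range X)
    let J : Ideal (MvPolynomial (Fin 4) k) :=
      m * Ideal.span (Set.range fun i : Fin 4 => X i ^ 4) ⊔ Ideal.span {∏ i : Fin 4, X i ^ 3}
    (∀ w : Fin 4 → ℕ, (m ^ 2).IsHomogeneous (weightedHomogeneousSubmodule k w) ∧
      J.IsHomogeneous (weightedHomogeneousSubmodule k w)) ∧
    J ≤ m ^ 2 ∧ IsGolod (m ^ 2) ∧ IsGolod J ∧ ¬ IsGolod (m ^ 2 * J) := by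
  intro m J
  have hJ : J = monId k PJ := J_eq
  refine ⟨fun w => ?_, ?_, isGolod_sq, ?_, ?_⟩
  · have hX : ∀ i : Fin 4, SetLike.IsHomogeneousElem (weightedHomogeneousSubmodule k w)
        (X i : MvPolynomial (Fin 4) k) := fun i => ⟨w i, isWeightedHomogeneous_X k w i⟩
    have hm : m.IsHomogeneous (weightedHomogeneousSubmodule k w) := by
      apply Ideal.homogeneous_span
      rintro _ ⟨i, rfl⟩
      exact hX i
    have hpow : ∀ (i : Fin 4) (e : ℕ),
        SetLike.IsHomogeneousElem (weightedHomogeneousSubmodule k w)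
        (X i ^ e : MvPolynomial (Fin 4) k) := fun i e =>
      ⟨e • w i, (isWeightedHomogeneous_X k w i).pow e⟩
    refine ⟨?_, ?_⟩
    · rw [pow_two]
      exact hm.mul hm
    · refine Ideal.IsHomogeneous.sup (hm.mul ?_) ?_
      · apply Ideal.homogeneous_span
        rintro _ ⟨i, rfl⟩
        exact hpow i 4
      · apply Ideal.homogeneous_span
        rintro _ rfl
        exact ⟨∑ i : Fin 4, 3 • w i, IsWeightedHomogeneous.prod _ _ _ fun i _ =>
          (isWeightedHomogeneous_X k w i).pow 3⟩
  · rw [hJ]
    intro p hp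
    have h1 := (mem_monId PJ_mono).1 hp
    show p ∈ idealOfVars (Fin 4) k ^ 2
    rw [mem_pow_idealOfVars_iff]
    intro s hs
    rcases h1 s hs with ⟨i, _, h2⟩ | h2
    · omega
    · have := h2 0
      have := le_degree' s 0
      omega
  · rw [hJ]; exact isGolod_PJ
  · rw [hJ]; exact not_isGolod

end Pool.Agent.Results.MP_6756f0_al.GolodProducts
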